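import Pool.Agent.Work.MP_6722ca_lc.Assembly2

/-!
# Conjugacy of measure-preserving transformations is a complete orbit equivalence relation

Problem MP_6722ca_lc, question Q1.  The definitions follow the problem file.
-/

set_option autoImplicit false

open MeasureTheory
open scoped symmDiff ENNReal

universe u v w

namespace Pool.Agent.Results.MP_6722ca_lc.ConjugacyComplete

/-! ## The group `Aut(Ω, μ)` -/

/-- The measure-preserving bimeasurable bijections of `(Ω, μ)`. -/
def Bij (Ω : Type w) [MeasurableSpace Ω] (μ : Measure Ω) : Type w :=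
  {T : Ω ≃ᵐ Ω // MeasurePreserving T μ μ}

/-- Two of them are identified when they are equal outside a `μ`-null set. -/
instance nullSetoid (Ω : Type w) [MeasurableSpace Ω] (μ : Measure Ω) : Setoid (Bij Ω μ) where
  r S T := ∀ᵐ ω ∂μ, S.1 ω = T.1 ω
  iseqv := ⟨fun _ => Filter.Eventually.of_forall fun _ => rfl,
    fun h => h.mono fun _ e => e.symm, fun h h' => h.mp (h'.mono fun _ e' e => e.trans e')⟩

/-- `Aut(Ω, μ)`: measure-preserving bimeasurable bijections modulo null sets. -/
def Aut (Ω : Type w) [MeasurableSpace Ω] (μ : Measure Ω) : Type w := Quotient (nullSetoid Ω μ)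

/-- The element of `Aut(Ω, μ)` given by a measure-preserving bijection. -/
def cls {Ω : Type w} [MeasurableSpace Ω] {μ : Measure Ω} (S : Bij Ω μ) : Aut Ω μ := Quotient.mk _ S

/-- Equal outside a null set: the images of a measurable set differ by a null set. -/
theorem symm_ae {Ω : Type w} [MeasurableSpace Ω] {μ : Measure Ω} {S T : Bij Ω μ} (h : S ≈ T) :
    ∀ᵐ ω ∂μ, S.1.symm ω = T.1.symm ω := by
  have h1 : ∀ᵐ ω ∂μ, S.1 (T.1.symm ω) = T.1 (T.1.symm ω) :=
    (T.2.symm T.1).quasiMeasurePreserving.ae h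
  filter_upwards [h1] with ω hω
  rw [T.1.apply_symm_apply] at hω
  rw [← hω, S.1.symm_apply_apply, hω]

/-- Composition, the identity and the inverse make `Aut(Ω, μ)` a group. -/
instance autGroup (Ω : Type w) [MeasurableSpace Ω] (μ : Measure Ω) : Group (Aut Ω μ) where
  mul := Quotient.map₂ (fun S T => (⟨T.1.trans S.1, S.2.comp T.2⟩ : Bij Ω μ))
    (by
      intro S S' hS T T' hT
      have h1 : ∀ᵐ ω ∂μ, S.1 (T'.1 ω) = S'.1 (T'.1 ω) := T'.2.quasiMeasurePreserving.ae hS
      show ∀ᵐ ω ∂μ, S.1 (T.1 ω) = S'.1 (T'.1 ω)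
      filter_upwards [h1, hT] with ω h2 h3
      rw [h3, h2])
  one := Quotient.mk _ ⟨MeasurableEquiv.refl Ω, MeasurePreserving.id μ⟩
  inv := Quotient.map (fun S => (⟨S.1.symm, S.2.symm S.1⟩ : Bij Ω μ))
    (by
      intro S T h
      exact symm_ae h)
  mul_assoc := by
    rintro ⟨S⟩ ⟨T⟩ ⟨R⟩
    rfl
  one_mul := by
    rintro ⟨S⟩
    rfl
  mul_one := by
    rintro ⟨S⟩
    rfl
  inv_mul_cancel := by
    rintro ⟨S⟩
    refine Quotient.sound (Filter.Eventually.of_forall fun ω => ?_)
    exact S.1.symm_apply_apply ω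

/-- The image of a set under an element of `Aut(Ω, μ)` is defined up to null sets. -/
theorem image_ae {Ω : Type w} [MeasurableSpace Ω] {μ : Measure Ω} {S T : Bij Ω μ} (h : S ≈ T)
    (A : Set Ω) : (S.1 '' A : Set Ω) =ᵐ[μ] (T.1 '' A : Set Ω) := by
  filter_upwards [symm_ae h] with ω hω
  apply propext
  have h1 : ω ∈ (S.1 '' A : Set Ω) ↔ S.1.symm ω ∈ A := by
    constructor
    · rintro ⟨a, ha, rfl⟩
      rwa [S.1.symm_apply_apply]
    · intro ha
      exact ⟨_, ha, S.1.apply_symm_apply ω⟩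
  have h2 : ω ∈ (T.1 '' A : Set Ω) ↔ T.1.symm ω ∈ A := by
    constructor
    · rintro ⟨a, ha, rfl⟩
      rwa [T.1.symm_apply_apply]
    · intro ha
      exact ⟨_, ha, T.1.apply_symm_apply ω⟩
  show (ω ∈ (S.1 '' A : Set Ω)) ↔ (ω ∈ (T.1 '' A : Set Ω))
  rw [h1, h2, hω]

/-- `gap A S T = μ (S A ∆ T A)`. -/
noncomputable def gap {Ω : Type w} [MeasurableSpace Ω] {μ : Measure Ω} (A : Set Ω)
    (S T : Aut Ω μ) : ℝ≥0∞ :=
  Quotient.liftOn₂ S T (fun S T => μ ((S.1 '' A) ∆ (T.1 '' A)))
    (fun _ _ _ _ hS hT => measure_congr ((image_ae hS A).symmDiff (image_ae hT A)))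

/-- The weak topology: it is generated by the sets `{S : μ (S A ∆ T A) < ε}`, where `A` is
measurable, `T` in `Aut(Ω, μ)` and `ε > 0`. -/
instance weakTopology (Ω : Type w) [MeasurableSpace Ω] (μ : Measure Ω) :
    TopologicalSpace (Aut Ω μ) :=
  TopologicalSpace.generateFrom {U | ∃ A : Set Ω, MeasurableSet A ∧ ∃ T : Aut Ω μ, ∃ ε : ℝ≥0∞,
    0 < ε ∧ U = {S | gap A S T < ε}}

/-- The Borel sets of the weak topology. -/
instance weakBorel (Ω : Type w) [MeasurableSpace Ω] (μ : Measure Ω) :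
    MeasurableSpace (Aut Ω μ) := borel (Aut Ω μ)

instance (Ω : Type w) [MeasurableSpace Ω] (μ : Measure Ω) : BorelSpace (Aut Ω μ) := ⟨rfl⟩

/-- `E_conj`, the orbit equivalence relation of the conjugation action of `Aut(Ω, μ)` on
itself. -/
def EConj (Ω : Type w) [MeasurableSpace Ω] (μ : Measure Ω) (S T : Aut Ω μ) : Prop :=
  ∃ g : Aut Ω μ, T = g * S * g⁻¹

/-! ## Complete orbit equivalence relations -/

/-- The orbit equivalence relation of an action of `G` on `Y`. -/
def OrbitRel (G : Type u) [Group G] (Y : Type v) [MulAction G Y] (y y' : Y) : Prop :=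
  ∃ g : G, y' = g • y

/-- Borel reducibility. -/
def BorelReducible {Y : Type v} {Z : Type w} [MeasurableSpace Y] [MeasurableSpace Z]
    (E : Y → Y → Prop) (F : Z → Z → Prop) : Prop :=
  ∃ f : Y → Z, Measurable f ∧ ∀ y y' : Y, E y y' ↔ F (f y) (f y')

/-- Every orbit equivalence relation of a Borel action of a Polish group on a standard Borel space
is Borel reducible to `F`. -/
def IsComplete {Z : Type w} [MeasurableSpace Z] (F : Z → Z → Prop) : Prop :=
  ∀ (G : Type u) [TopologicalSpace G] [Group G] [IsTopologicalGroup G] [PolishSpace G]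
    [MeasurableSpace G] [BorelSpace G] (Y : Type v) [MeasurableSpace Y] [StandardBorelSpace Y]
    [MulAction G Y], Measurable (fun p : G × Y => p.1 • p.2) → BorelReducible (OrbitRel G Y) F

/-! ## Measurability for the weak topology -/

theorem meas_image {Ω : Type w} [MeasurableSpace Ω] {μ : Measure Ω} (S : Bij Ω μ) (A : Set Ω) :
    MeasurableSet A → MeasurableSet (S.1 '' A : Set Ω) :=
  fun hA => S.1.measurableSet_image.2 hA

theorem measure_image {Ω : Type w} [MeasurableSpace Ω] {μ : Measure Ω} (S : Bij Ω μ) (A : Set Ω) :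
    μ (S.1 '' A : Set Ω) = μ A := by
  have h := (S.2.symm S.1).measure_preimage_equiv A
  rw [← h]
  congr 1
  exact S.1.toEquiv.image_eq_preimage_symm A

theorem real_symmDiff {Ω : Type w} [MeasurableSpace Ω] {μ : Measure Ω} [IsFiniteMeasure μ]
    {A B : Set Ω} (hA : MeasurableSet A) (hB : MeasurableSet B) :
    μ.real (A ∆ B) = μ.real A + μ.real B - 2 * μ.real (A ∩ B) := by
  have h1 : μ.real (A ∆ B) = μ.real (A \ B) + μ.real (B \ A) := by
    rw [Set.symmDiff_def]
    exact measureReal_union disjoint_sdiff_sdiff (hB.diff hA)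
  have h2 := measureReal_sdiff_add_inter (μ := μ) (s := A) hB
  have h3 := measureReal_sdiff_add_inter (μ := μ) (s := B) hA
  rw [Set.inter_comm B A] at h3
  linarith

theorem real_tri {Ω : Type w} [MeasurableSpace Ω] {μ : Measure Ω} [IsFiniteMeasure μ]
    (A B C : Set Ω) : μ.real (A ∆ C) ≤ μ.real (A ∆ B) + μ.real (B ∆ C) := by
  refine (measureReal_mono ?_).trans (measureReal_union_le _ _)
  exact symmDiff_triangle A B C

theorem image_symmDiff {Ω : Type w} [MeasurableSpace Ω] {μ : Measure Ω} (S : Bij Ω μ)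
    (A B : Set Ω) : μ.real ((S.1 '' A) ∆ (S.1 '' B)) = μ.real (A ∆ B) := by
  unfold Measure.real
  rw [← measure_image S (A ∆ B), Set.image_symmDiff S.1.injective]

/-- A map into `Aut(Ω, μ)` is Borel when the measures of all `S A ∩ B` are measurable. -/
theorem measurable_mk {Ω : Type w} [MeasurableSpace Ω] [StandardBorelSpace Ω] {μ : Measure Ω}
    [IsProbabilityMeasure μ] {Y : Type v} [MeasurableSpace Y] (F : Y → Bij Ω μ)
    (hF : ∀ A B : Set Ω, MeasurableSet A → MeasurableSet B →
      Measurable fun y => μ ((F y).1 '' A ∩ B)) :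
    Measurable (fun y => cls (F y)) := by
  classical
  obtain ⟨𝒜, hc, hd⟩ := exists_countable_measureDense (μ := μ)
  have : Countable 𝒜 := hc.to_subtype
  let Ψ : Aut Ω μ → (𝒜 × 𝒜 → ℝ) := fun S p => μ.real ((S.out.1 '' p.1.1) ∩ p.2.1)
  have hΨ : ∀ S : Bij Ω μ, ∀ p : 𝒜 × 𝒜,
      Ψ (cls S) p = μ.real ((S.1 '' p.1.1) ∩ p.2.1) := by
    intro S p
    have h1 : (Quotient.mk (nullSetoid Ω μ) S).out ≈ S := Quotient.mk_out S
    exact congrArg ENNReal.toReal (measure_congr ((image_ae h1 p.1.1).inter Filter.EventuallyEq.rfl))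
  have hle : TopologicalSpace.induced Ψ inferInstance ≤ weakTopology Ω μ := by
    refine le_generateFrom ?_
    rintro U ⟨A, hA, T, ε, hε, rfl⟩
    refine (@isOpen_iff_forall_mem_open _ (TopologicalSpace.induced Ψ inferInstance) _).2 ?_
    intro S₀ hS₀
    obtain ⟨T, rfl⟩ := Quotient.exists_rep T
    obtain ⟨S₀, rfl⟩ := Quotient.exists_rep S₀
    have hS₀' : μ ((S₀.1 '' A) ∆ (T.1 '' A)) < ε := hS₀
    obtain ⟨δ, hδ, hδε⟩ : ∃ δ : ℝ, 0 < δ ∧
        ENNReal.ofReal (μ.real ((S₀.1 '' A) ∆ (T.1 '' A)) + 6 * δ) < ε := by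
      have h1 : Filter.Tendsto (fun δ : ℝ =>
          ENNReal.ofReal (μ.real ((S₀.1 '' A) ∆ (T.1 '' A)) + 6 * δ)) (nhdsWithin 0 (Set.Ioi 0))
          (nhds (ENNReal.ofReal (μ.real ((S₀.1 '' A) ∆ (T.1 '' A)) + 6 * 0))) := by
        refine Filter.Tendsto.mono_left ?_ nhdsWithin_le_nhds
        refine Continuous.tendsto ?_ 0
        exact ENNReal.continuous_ofReal.comp (by fun_prop)
      rw [mul_zero, add_zero, ofReal_measureReal] at h1
      have h2 := (h1.eventually (gt_mem_nhds hS₀')).and self_mem_nhdsWithin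
      obtain ⟨δ, h3, h4⟩ := h2.exists
      exact ⟨δ, h4, h3⟩
    obtain ⟨A', hA', hAA⟩ := hd.approx A hA (measure_ne_top μ A) δ hδ
    obtain ⟨B', hB', hBB⟩ := hd.approx (T.1 '' A) (meas_image T A hA) (measure_ne_top μ _) δ hδ
    have hA'm := hd.measurable A' hA'
    have hB'm := hd.measurable B' hB'
    have hAA' : μ.real (A ∆ A') ≤ δ := by
      refine ENNReal.toReal_le_of_le_ofReal hδ.le hAA.le
    have hBB' : μ.real ((T.1 '' A) ∆ B') ≤ δ := ENNReal.toReal_le_of_le_ofReal hδ.le hBB.le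
    let p : 𝒜 × 𝒜 := (⟨A', hA'⟩, ⟨B', hB'⟩)
    refine ⟨Ψ ⁻¹' {x | Ψ (cls S₀) p - δ < x p}, ?_, ?_, ?_⟩
    · intro S hS
      obtain ⟨S, rfl⟩ := Quotient.exists_rep S
      have hS' : Ψ (cls S₀) p - δ < Ψ (cls S) p := hS
      rw [hΨ, hΨ] at hS'
      show μ ((S.1 '' A) ∆ (T.1 '' A)) < ε
      refine lt_of_le_of_lt ?_ hδε
      rw [← ofReal_measureReal (μ := μ) (s := (S.1 '' A) ∆ (T.1 '' A))]
      apply ENNReal.ofReal_le_ofReal
      -- the chain of inequalities
      have e1 := real_tri (μ := μ) (S.1 '' A) (S.1 '' A') (T.1 '' A)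
      have e2 := real_tri (μ := μ) (S.1 '' A') B' (T.1 '' A)
      have e3 := real_tri (μ := μ) (S₀.1 '' A') (S₀.1 '' A) B'
      have e4 := real_tri (μ := μ) (S₀.1 '' A) (T.1 '' A) B'
      have i1 := image_symmDiff S A A'
      have i2 := image_symmDiff S₀ A' A
      rw [symmDiff_comm A' A] at i2
      have s1 := real_symmDiff (μ := μ) (meas_image S A' hA'm) hB'm
      have s2 := real_symmDiff (μ := μ) (meas_image S₀ A' hA'm) hB'm
      have m1 : μ.real (S.1 '' A' : Set Ω) = μ.real A' :=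
        congrArg ENNReal.toReal (measure_image S A')
      have m2 : μ.real (S₀.1 '' A' : Set Ω) = μ.real A' :=
        congrArg ENNReal.toReal (measure_image S₀ A')
      have c1 : μ.real (B' ∆ (T.1 '' A)) = μ.real ((T.1 '' A) ∆ B') := by rw [symmDiff_comm]
      have hS'' : μ.real ((S₀.1 '' A') ∩ B') - δ < μ.real ((S.1 '' A') ∩ B') := hS'
      linarith
    · refine isOpen_induced ?_
      exact isOpen_lt continuous_const (continuous_apply p)
    · show Ψ (cls S₀) p - δ < Ψ (cls S₀) p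
      linarith
  refine measurable_of_isOpen ?_
  intro U hU
  obtain ⟨V, hV, rfl⟩ := isOpen_induced_iff.1 (hle U hU)
  have h1 : Measurable (fun y => Ψ (cls (F y))) := by
    refine measurable_pi_lambda _ fun p => ?_
    simp only [hΨ]
    exact (hF _ _ (hd.measurable _ p.1.2) (hd.measurable _ p.2.2)).ennreal_toReal
  exact h1 hV.measurableSet

/-! ## All universes, standard Borel spaces -/

/-- The reduction to the unit interval for all Polish groups and standard Borel spaces. -/
theorem main_univ (G : Type u) [TopologicalSpace G] [Group G] [IsTopologicalGroup G]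
    [PolishSpace G] [MeasurableSpace G] [BorelSpace G] (Y : Type v) [MeasurableSpace Y]
    [StandardBorelSpace Y] [MulAction G Y] (hact : Measurable (fun p : G × Y => p.1 • p.2)) :
    ∃ f : Y → MeasurableEquiv unitInterval unitInterval,
      (∀ x, MeasurePreserving (f x) (volume : Measure unitInterval)
        (volume : Measure unitInterval)) ∧
      (∀ A B : Set unitInterval, MeasurableSet A → MeasurableSet B →
        Measurable (fun x : Y => (volume : Measure unitInterval) ((f x) ⁻¹' A ∩ B))) ∧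
      (∀ x y : Y, (∃ g : G, g • x = y) ↔
        ∃ R : MeasurableEquiv unitInterval unitInterval,
          MeasurePreserving R (volume : Measure unitInterval)
            (volume : Measure unitInterval) ∧
          (fun t : unitInterval => R (f x (R.symm t))) =ᵐ[(volume : Measure unitInterval)]
            (fun t : unitInterval => f y t)) := by
  obtain ⟨a, ha⟩ := exists_measurableEmbedding_real G
  obtain ⟨b, hb⟩ := exists_measurableEmbedding_real Y
  have hsG : Small.{0} G := small_of_injective ha.injective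
  have hsY : Small.{0} Y := small_of_injective hb.injective
  -- the group
  let eG : G ≃ₜ Shrink.{0} G := Shrink.homeomorph G
  let mG : G ≃* Shrink.{0} G := Shrink.mulEquiv.symm
  have heG : ∀ g, mG g = eG g := fun g => rfl
  have h1 : IsTopologicalGroup (Shrink.{0} G) :=
    Topology.IsInducing.topologicalGroup mG.symm eG.symm.isInducing
  have h2 : PolishSpace (Shrink.{0} G) := eG.symm.isClosedEmbedding.polishSpace
  let _ : MeasurableSpace (Shrink.{0} G) := borel _
  have h3 : BorelSpace (Shrink.{0} G) := ⟨rfl⟩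
  -- the space
  let _ : MeasurableSpace (Shrink.{0} Y) := MeasurableSpace.comap (equivShrink Y).symm inferInstance
  let eY : Y ≃ᵐ Shrink.{0} Y :=
    { toEquiv := equivShrink Y
      measurable_toFun := by
        rintro s ⟨t, ht, rfl⟩
        have : (equivShrink Y) ⁻¹' ((equivShrink Y).symm ⁻¹' t) = t := by
          ext y
          simp
        show MeasurableSet ((equivShrink Y) ⁻¹' ((equivShrink Y).symm ⁻¹' t))
        rw [this]
        exact ht
      measurable_invFun := fun t ht => ⟨t, ht, rfl⟩ }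
  have h4 : StandardBorelSpace (Shrink.{0} Y) := by
    let _ := upgradeStandardBorel Y
    let t : TopologicalSpace (Shrink.{0} Y) := TopologicalSpace.induced eY.symm inferInstance
    have hp : PolishSpace (Shrink.{0} Y) := (equivShrink Y).symm.polishSpace_induced
    have hbo : BorelSpace (Shrink.{0} Y) := by
      have hY : (inferInstance : MeasurableSpace Y) = borel Y := BorelSpace.measurable_eq
      exact ⟨(congrArg (MeasurableSpace.comap (equivShrink Y).symm) hY).trans borel_comap.symm⟩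
    exact ⟨t, hbo, hp⟩
  let _ : MulAction (Shrink.{0} G) (Shrink.{0} Y) :=
    { smul := fun g y => eY (mG.symm g • eY.symm y)
      one_smul := by
        intro y
        show eY (mG.symm 1 • eY.symm y) = y
        rw [map_one, one_smul, eY.apply_symm_apply]
      mul_smul := by
        intro g h y
        show eY (mG.symm (g * h) • eY.symm y) =
          eY (mG.symm g • eY.symm (eY (mG.symm h • eY.symm y)))
        rw [map_mul, mul_smul, eY.symm_apply_apply] }
  have hsm : ∀ (g : Shrink.{0} G) (y : Shrink.{0} Y), g • y = eY (mG.symm g • eY.symm y) :=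
    fun _ _ => rfl
  let _ := upgradeStandardBorel (Shrink.{0} Y)
  have hm : Measurable (fun p : Shrink.{0} G × Shrink.{0} Y => p.1 • p.2) := by
    have h5 : Measurable (fun p : Shrink.{0} G × Shrink.{0} Y =>
        ((eG.symm p.1, eY.symm p.2) : G × Y)) :=
      (eG.symm.continuous.measurable.comp measurable_fst).prodMk
        (eY.symm.measurable.comp measurable_snd)
    exact eY.measurable.comp (hact.comp h5)
  obtain ⟨f, hf1, hf2, hf3⟩ := CEq.main (Shrink.{0} G) (Shrink.{0} Y) hm
  refine ⟨fun y => f (eY y), fun y => hf1 _, fun A B hA hB => (hf2 A B hA hB).comp eY.measurable,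
    fun x y => ?_⟩
  rw [← hf3 (eY x) (eY y)]
  constructor
  · rintro ⟨g, rfl⟩
    refine ⟨mG g, ?_⟩
    rw [hsm, mG.symm_apply_apply, eY.symm_apply_apply]
  · rintro ⟨g, hg⟩
    refine ⟨mG.symm g, ?_⟩
    rw [hsm, eY.symm_apply_apply] at hg
    exact eY.injective hg

/-! ## From the unit interval to a standard probability space which is not purely atomic -/

section Ext

variable {Ω : Type w} [MeasurableSpace Ω] {μ : Measure Ω} {D : Set Ω}

open Classical in
/-- Extension of a measurable bijection of `D` by the identity. -/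
noncomputable def ext (hD : MeasurableSet D) (g : D ≃ᵐ D) : Ω ≃ᵐ Ω :=
  ((MeasurableEquiv.sumCompl hD).symm.trans
    (MeasurableEquiv.sumCongr g (MeasurableEquiv.refl (Dᶜ : Set Ω)))).trans
    (MeasurableEquiv.sumCompl hD)

theorem ext_of_mem (hD : MeasurableSet D) (g : D ≃ᵐ D) (ω : Ω) (h : ω ∈ D) :
    ext hD g ω = g ⟨ω, h⟩ := by
  classical
  have h1 : (MeasurableEquiv.sumCompl hD).symm ω = Sum.inl ⟨ω, h⟩ :=
    Equiv.sumCompl_symm_apply_of_pos h
  show (MeasurableEquiv.sumCompl hD) (MeasurableEquiv.sumCongr g (MeasurableEquiv.refl _)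
    ((MeasurableEquiv.sumCompl hD).symm ω)) = _
  rw [h1]
  rfl

theorem ext_of_notMem (hD : MeasurableSet D) (g : D ≃ᵐ D) (ω : Ω) (h : ω ∉ D) :
    ext hD g ω = ω := by
  classical
  have h1 : (MeasurableEquiv.sumCompl hD).symm ω = Sum.inr ⟨ω, h⟩ :=
    Equiv.sumCompl_symm_apply_of_neg h
  show (MeasurableEquiv.sumCompl hD) (MeasurableEquiv.sumCongr g (MeasurableEquiv.refl _)
    ((MeasurableEquiv.sumCompl hD).symm ω)) = _
  rw [h1]
  rfl

theorem ext_symm (hD : MeasurableSet D) (g : D ≃ᵐ D) : (ext hD g).symm = ext hD g.symm := rfl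

theorem ext_mp (hD : MeasurableSet D) (g : D ≃ᵐ D)
    (hg : MeasurePreserving g (μ.comap ((↑) : D → Ω)) (μ.comap ((↑) : D → Ω))) :
    MeasurePreserving (ext hD g) μ μ := by
  refine ⟨(ext hD g).measurable, ?_⟩
  refine Measure.ext fun A hA => ?_
  rw [Measure.map_apply (ext hD g).measurable hA]
  have h0 := (ext hD g).measurable hA
  rw [← measure_inter_add_sdiff (μ := μ) _ hD, ← measure_inter_add_sdiff (μ := μ) A hD]
  congr 1
  · have h1 : ((ext hD g) ⁻¹' A) ∩ D = ((↑) : D → Ω) '' (g ⁻¹' (((↑) : D → Ω) ⁻¹' A)) := by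
      ext ω
      constructor
      · rintro ⟨h1, h2⟩
        refine ⟨⟨ω, h2⟩, ?_, rfl⟩
        show (g ⟨ω, h2⟩ : Ω) ∈ A
        rw [← ext_of_mem hD g ω h2]
        exact h1
      · rintro ⟨x, hx, rfl⟩
        refine ⟨?_, x.2⟩
        show ext hD g x.1 ∈ A
        rw [ext_of_mem hD g x.1 x.2]
        exact hx
    have h2 : A ∩ D = ((↑) : D → Ω) '' (((↑) : D → Ω) ⁻¹' A) := by
      rw [Subtype.image_preimage_coe, Set.inter_comm]
    rw [h1, h2, ← comap_subtype_coe_apply hD, ← comap_subtype_coe_apply hD]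
    exact hg.measure_preimage_equiv _
  · congr 1
    ext ω
    constructor
    · rintro ⟨h1, h2⟩
      refine ⟨?_, h2⟩
      rw [Set.mem_preimage, ext_of_notMem hD g ω h2] at h1
      exact h1
    · rintro ⟨h1, h2⟩
      refine ⟨?_, h2⟩
      rw [Set.mem_preimage, ext_of_notMem hD g ω h2]
      exact h1

/-- Restriction of a measure-preserving bijection to the set of the points which are not
atoms. -/
theorem exists_restrict (hD : D = {ω | μ {ω} = 0}) (hDm : MeasurableSet D) (G : Bij Ω μ) :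
    ∃ r : D ≃ᵐ D, (∀ x : D, (r x : Ω) = G.1 x) ∧
      MeasurePreserving r (μ.comap ((↑) : D → Ω)) (μ.comap ((↑) : D → Ω)) := by
  have h1 : ∀ ω : Ω, ω ∈ D ↔ G.1 ω ∈ D := by
    intro ω
    have h2 : μ {G.1 ω} = μ {ω} := by
      rw [← measure_image G {ω}, Set.image_singleton]
    rw [hD, Set.mem_ofPred_eq, Set.mem_ofPred_eq, h2]
  let r : D ≃ᵐ D :=
    { toEquiv := G.1.toEquiv.subtypeEquiv h1
      measurable_toFun := (G.1.measurable.comp measurable_subtype_coe).subtype_mk
      measurable_invFun := (G.1.symm.measurable.comp measurable_subtype_coe).subtype_mk }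
  refine ⟨r, fun x => rfl, r.measurable, ?_⟩
  refine Measure.ext fun A hA => ?_
  rw [Measure.map_apply r.measurable hA, comap_subtype_coe_apply hDm,
    comap_subtype_coe_apply hDm, ← measure_image G]
  congr 1
  ext ω
  constructor
  · rintro ⟨_, ⟨x, hx, rfl⟩, rfl⟩
    exact ⟨r x, hx, rfl⟩
  · rintro ⟨x, hx, rfl⟩
    refine ⟨_, ⟨r.symm x, ?_, rfl⟩, ?_⟩
    · show r (r.symm x) ∈ A
      rw [r.apply_symm_apply]
      exact hx
    · show G.1 (G.1.symm x) = x
      exact G.1.apply_symm_apply _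

end Ext

/-- The set of the points which are not atoms is measurable. -/
theorem measurable_diffuse {Ω : Type w} [MeasurableSpace Ω] [StandardBorelSpace Ω]
    (μ : Measure Ω) [IsProbabilityMeasure μ] : MeasurableSet {ω | μ {ω} = 0} := by
  have h1 : Set.Countable {t : Ω | 0 < μ {a : Ω | id a = t}} :=
    Measure.countable_meas_level_set_pos measurable_id
  have h2 : {ω | μ {ω} = 0} = {t : Ω | 0 < μ {a : Ω | id a = t}}ᶜ := by
    ext ω
    have : {a : Ω | id a = ω} = {ω} := rfl
    simp only [Set.mem_compl_iff, Set.mem_ofPred_eq, this]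
    simp
  rw [h2]
  exact h1.measurableSet.compl

/-- **Answer to Q1.**  Let `(Ω, μ)` be a standard probability space which is not purely atomic
(the points `ω` with `μ {ω} = 0` do not form a null set); in particular `(Ω, μ)` may be any
atomless standard probability space.  Then `E_conj`, the orbit equivalence relation of the
conjugation action of `Aut(Ω, μ)` on itself, is a complete orbit equivalence relation: the orbit
equivalence relation of every Borel action of a Polish group on a standard Borel space is Borel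
reducible to it. -/
theorem result (Ω : Type w) [MeasurableSpace Ω] [StandardBorelSpace Ω] (μ : Measure Ω)
    [IsProbabilityMeasure μ] (hμ : μ {ω | μ {ω} = 0} ≠ 0) :
    IsComplete.{u, v, w} (EConj Ω μ) := by
  intro G _ _ _ _ _ _ Y _ _ _ hact
  obtain ⟨f, hf1, hf2, hf3⟩ := main_univ G Y hact
  -- the diffuse part
  let D : Set Ω := {ω | μ {ω} = 0}
  have hDm : MeasurableSet D := measurable_diffuse μ
  have : StandardBorelSpace D := hDm.standardBorel
  have hμD : μ D ≠ 0 := hμ
  have hμD' : μ D ≠ ⊤ := measure_ne_top μ D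
  let ν : Measure D := (μ D)⁻¹ • μ.comap ((↑) : D → Ω)
  have hc0 : (μ D)⁻¹ ≠ 0 := ENNReal.inv_ne_zero.2 hμD'
  have hct : (μ D)⁻¹ ≠ ⊤ := ENNReal.inv_ne_top.2 hμD
  have hν : ∀ A : Set D, ν A = (μ D)⁻¹ * μ ((↑) '' A) := by
    intro A
    show ((μ D)⁻¹ • μ.comap ((↑) : D → Ω)) A = _
    rw [Measure.smul_apply, smul_eq_mul, comap_subtype_coe_apply hDm]
  have hνp : IsProbabilityMeasure ν := by
    refine ⟨?_⟩
    rw [hν, Set.image_univ, Subtype.range_coe]
    exact ENNReal.inv_mul_cancel hμD hμD'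
  have hν0 : ∀ x : D, ν {x} = 0 := by
    intro x
    rw [hν, Set.image_singleton, x.2, mul_zero]
  have hae : ∀ p : Ω → Prop, (∀ᵐ x : D ∂ν, p x) ↔ ∀ᵐ ω ∂μ, ω ∈ D → p ω := by
    intro p
    rw [← ae_restrict_iff' hDm, ae_restrict_iff_subtype hDm]
    exact Measure.ae_ennreal_smul_measure_iff hc0
  have hcomap : ∀ g : D ≃ᵐ D, MeasurePreserving g ν ν →
      MeasurePreserving g (μ.comap ((↑) : D → Ω)) (μ.comap ((↑) : D → Ω)) := by
    intro g hg
    refine ⟨g.measurable, ?_⟩
    refine Measure.ext fun A hA => ?_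
    have h1 := hg.measure_preimage_equiv A
    rw [Measure.map_apply g.measurable hA]
    have h2 : (μ D)⁻¹ * μ.comap ((↑) : D → Ω) (g ⁻¹' A) =
        (μ D)⁻¹ * μ.comap ((↑) : D → Ω) A := h1
    have h3 := congrArg (fun t => μ D * t) h2
    simp only [← mul_assoc] at h3
    rwa [ENNReal.mul_inv_cancel hμD hμD', one_mul, one_mul] at h3
  have hcomap' : ∀ g : D ≃ᵐ D,
      MeasurePreserving g (μ.comap ((↑) : D → Ω)) (μ.comap ((↑) : D → Ω)) →
      MeasurePreserving g ν ν := by
    intro g hg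
    exact hg.smul_measure _
  obtain ⟨e, he⟩ := CJ.exists_equiv_unitInterval ν hν0
  have hes : MeasurePreserving e.symm volume ν := he.symm e
  let g : Y → D ≃ᵐ D := fun y => (e.trans (f y)).trans e.symm
  have hg : ∀ y, MeasurePreserving (g y) ν ν := fun y => (hes.comp (hf1 y)).comp he
  let F : Y → Bij Ω μ := fun y => ⟨ext hDm (g y), ext_mp hDm (g y) (hcomap _ (hg y))⟩
  refine ⟨fun y => cls (F y), measurable_mk F ?_, ?_⟩
  · intro A B hA hB
    have h1 : ∀ y, μ ((F y).1 '' A ∩ B) = μ ((A ∩ B) \ D) + μ D *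
        volume ((f y) ⁻¹' (e.symm ⁻¹' (((↑) : D → Ω) ⁻¹' B)) ∩
          e.symm ⁻¹' (((↑) : D → Ω) ⁻¹' A)) := by
      intro y
      have h2 : (F y).1 '' A ∩ B = (F y).1 '' (A ∩ (F y).1 ⁻¹' B) := by
        rw [Set.image_inter_preimage]
      have hm : MeasurableSet (A ∩ (F y).1 ⁻¹' B) := hA.inter ((F y).1.measurable hB)
      rw [h2, measure_image, ← measure_inter_add_sdiff (A ∩ (F y).1 ⁻¹' B) hDm, add_comm]
      congr 1
      · congr 1
        ext ω
        constructor
        · rintro ⟨⟨h3, h4⟩, h5⟩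
          refine ⟨⟨h3, ?_⟩, h5⟩
          have h6 : ext hDm (g y) ω ∈ B := h4
          rwa [ext_of_notMem hDm _ _ h5] at h6
        · rintro ⟨⟨h3, h4⟩, h5⟩
          refine ⟨⟨h3, ?_⟩, h5⟩
          show ext hDm (g y) ω ∈ B
          rwa [ext_of_notMem hDm _ _ h5]
      · have h7 : (A ∩ (F y).1 ⁻¹' B) ∩ D = ((↑) : D → Ω) ''
            ((g y) ⁻¹' (((↑) : D → Ω) ⁻¹' B) ∩ ((↑) : D → Ω) ⁻¹' A) := by
          ext ω
          constructor
          · rintro ⟨⟨h3, h4⟩, h5⟩
            refine ⟨⟨ω, h5⟩, ⟨?_, h3⟩, rfl⟩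
            have h6 : ext hDm (g y) ω ∈ B := h4
            rwa [ext_of_mem hDm _ _ h5] at h6
          · rintro ⟨x, ⟨h3, h4⟩, rfl⟩
            refine ⟨⟨h4, ?_⟩, x.2⟩
            show ext hDm (g y) x ∈ B
            rw [ext_of_mem hDm _ _ x.2]
            exact h3
        rw [h7]
        have h8 := hν ((g y) ⁻¹' (((↑) : D → Ω) ⁻¹' B) ∩ ((↑) : D → Ω) ⁻¹' A)
        have h9 : ν ((g y) ⁻¹' (((↑) : D → Ω) ⁻¹' B) ∩ ((↑) : D → Ω) ⁻¹' A) =
            volume ((f y) ⁻¹' (e.symm ⁻¹' (((↑) : D → Ω) ⁻¹' B)) ∩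
              e.symm ⁻¹' (((↑) : D → Ω) ⁻¹' A)) := by
          rw [← he.measure_preimage_equiv]
          congr 1
          ext x
          show (e.symm (f y (e x)) : Ω) ∈ B ∧ (x : Ω) ∈ A ↔
            (e.symm (f y (e x)) : Ω) ∈ B ∧ (e.symm (e x) : Ω) ∈ A
          rw [e.symm_apply_apply]
        rw [← h9, h8, ← mul_assoc, ENNReal.mul_inv_cancel hμD hμD', one_mul]
    simp only [h1]
    have hDA : MeasurableSet (((↑) : D → Ω) ⁻¹' A) := measurable_subtype_coe hA
    have hDB : MeasurableSet (((↑) : D → Ω) ⁻¹' B) := measurable_subtype_coe hB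
    exact measurable_const.add ((hf2 _ _ (e.symm.measurable hDB) (e.symm.measurable hDA)).const_mul _)
  · intro y y'
    have h0 : OrbitRel G Y y y' ↔ ∃ g : G, g • y = y' :=
      ⟨fun ⟨g, h⟩ => ⟨g, h.symm⟩, fun ⟨g, h⟩ => ⟨g, h.symm⟩⟩
    rw [h0, hf3 y y']
    constructor
    · rintro ⟨R, hR, hconj⟩
      let r : D ≃ᵐ D := (e.trans R).trans e.symm
      have hr : MeasurePreserving r ν ν := (hes.comp hR).comp he
      let Γ : Bij Ω μ := ⟨ext hDm r, ext_mp hDm r (hcomap r hr)⟩
      refine ⟨cls Γ, Quotient.sound ?_⟩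
      show ∀ᵐ ω ∂μ, (F y').1 ω = Γ.1 ((F y).1 (Γ.1.symm ω))
      have h1 : ∀ᵐ x : D ∂ν, ((F y').1 x : Ω) = Γ.1 ((F y).1 (Γ.1.symm x)) := by
        have h2 := he.quasiMeasurePreserving.ae hconj
        filter_upwards [h2] with x hx
        show ext hDm (g y') x = ext hDm r (ext hDm (g y) (ext hDm r.symm x))
        rw [ext_of_mem hDm _ _ x.2, ext_of_mem hDm _ _ x.2,
          ext_of_mem hDm _ _ (r.symm ⟨x, x.2⟩).2, ext_of_mem hDm _ _ (g y _).2]
        show (e.symm (f y' (e x)) : Ω) =
          e.symm (R (e (e.symm (f y (e (e.symm (R.symm (e x))))))))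
        rw [e.apply_symm_apply, e.apply_symm_apply, hx]
      have h3 := (hae (fun ω => (F y').1 ω = Γ.1 ((F y).1 (Γ.1.symm ω)))).1 h1
      filter_upwards [h3] with ω h4
      by_cases h5 : ω ∈ D
      · exact h4 h5
      · show ext hDm (g y') ω = ext hDm r (ext hDm (g y) (ext hDm r.symm ω))
        rw [ext_of_notMem hDm _ _ h5, ext_of_notMem hDm _ _ h5, ext_of_notMem hDm _ _ h5,
          ext_of_notMem hDm _ _ h5]
    · rintro ⟨Γ, hΓ⟩
      obtain ⟨Γ, rfl⟩ := Quotient.exists_rep Γ
      have h1 : ∀ᵐ ω ∂μ, (F y').1 ω = Γ.1 ((F y).1 (Γ.1.symm ω)) := Quotient.exact hΓ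
      obtain ⟨r, hr, hrm⟩ := exists_restrict (D := D) rfl hDm Γ
      have hrν := hcomap' r hrm
      have hrs : ∀ x : D, (r.symm x : Ω) = Γ.1.symm x := by
        intro x
        apply Γ.1.injective
        rw [← hr, r.apply_symm_apply, Γ.1.apply_symm_apply]
      have h2 : ∀ᵐ x : D ∂ν, ((F y').1 x : Ω) = Γ.1 ((F y).1 (Γ.1.symm x)) :=
        (hae (fun ω => (F y').1 ω = Γ.1 ((F y).1 (Γ.1.symm ω)))).2 (h1.mono fun ω h _ => h)
      refine ⟨(e.symm.trans r).trans e, (he.comp hrν).comp hes, ?_⟩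
      have h3 := hes.quasiMeasurePreserving.ae h2
      filter_upwards [h3] with t ht
      show e (r (e.symm (f y (e (r.symm (e.symm t)))))) = f y' t
      have h4 : ((F y').1 (e.symm t) : Ω) = g y' (e.symm t) := ext_of_mem hDm _ _ (e.symm t).2
      have h5 : ((F y).1 (Γ.1.symm (e.symm t)) : Ω) = g y (r.symm (e.symm t)) := by
        rw [← hrs]
        exact ext_of_mem hDm _ _ (r.symm (e.symm t)).2
      rw [h4, h5, ← hr] at ht
      have h6 : g y' (e.symm t) = r (g y (r.symm (e.symm t))) := Subtype.ext ht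
      have h7 : g y' (e.symm t) = e.symm (f y' t) := by
        show e.symm (f y' (e (e.symm t))) = _
        rw [e.apply_symm_apply]
      have h8 : g y (r.symm (e.symm t)) = e.symm (f y (e (r.symm (e.symm t)))) := rfl
      rw [← h8, ← h6, h7, e.apply_symm_apply]

end Pool.Agent.Results.MP_6722ca_lc.ConjugacyComplete
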